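import Mathlib
import Pool.Agent.H78.Lune

/-!
Further properties of the dual of the Lueneburg plane of order 64 (library file H78/Lune):
its order, and the fact that the identity is the only elation whose axis is the line `o`.
-/

set_option autoImplicit false
set_option linter.unusedSectionVars false
set_option linter.unusedSimpArgs false

namespace Pool.Agent.H4ILune

open Pool.Agent.H78Lune

theorem field8 : (2 : GaloisField 2 3) = 0 ∧ (∀ x : GaloisField 2 3, x ^ 8 = x) ∧
    (∃ t : GaloisField 2 3, t ^ 2 + t ≠ 0) ∧ Nat.card (GaloisField 2 3) = 8 := by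
  have h2 : (2 : GaloisField 2 3) = 0 := CharTwo.two_eq_zero
  have hc : Nat.card (GaloisField 2 3) = 8 := by
    rw [GaloisField.card 2 3 (by norm_num)]
    norm_num
  have : Fintype (GaloisField 2 3) := Fintype.ofFinite _
  have hc' : Fintype.card (GaloisField 2 3) = 8 := by rw [← Nat.card_eq_fintype_card, hc]
  refine ⟨h2, fun x => ?_, ?_, hc⟩
  · have := FiniteField.pow_card x
    rwa [hc'] at this
  · by_contra hno
    push Not at hno
    classical
    have hsub : (Finset.univ : Finset (GaloisField 2 3)) ⊆ {0, 1} := by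
      intro t _
      have h := hno t
      have h1 : t * (t - 1) = 0 := by linear_combination h - t * h2
      rcases mul_eq_zero.mp h1 with h3 | h3
      · simp [h3]
      · simp [sub_eq_zero.mp h3]
    have h4 := Finset.card_le_card hsub
    rw [Finset.card_univ, hc'] at h4
    have h5 : ({0, 1} : Finset (GaloisField 2 3)).card ≤ 2 := Finset.card_le_two
    omega

variable {F : Type} [Field F]

/-- The points of the dual plane, as a sum type. -/
def lnEquiv : Ln F ≃ (F × F × F × F) ⊕ (F × F) ⊕ Unit where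
  toFun p := match p with
    | .gen u1 u2 v1 v2 => Sum.inl (u1, u2, v1, v2)
    | .vert x y => Sum.inr (Sum.inl (x, y))
    | .lin => Sum.inr (Sum.inr ())
  invFun p := match p with
    | Sum.inl (u1, u2, v1, v2) => .gen u1 u2 v1 v2
    | Sum.inr (Sum.inl (x, y)) => .vert x y
    | Sum.inr (Sum.inr ()) => .lin
  left_inv p := by cases p <;> rfl
  right_inv p := by rcases p with ⟨a, b, c, d⟩ | ⟨a, b⟩ | ⟨⟩ <;> rfl

theorem card_ln (h : Nat.card F = 8) : Nat.card (Ln F) = 4161 := by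
  have hF : Finite F := Nat.finite_of_card_ne_zero (by omega)
  rw [Nat.card_congr lnEquiv, Nat.card_sum, Nat.card_sum, Nat.card_prod, Nat.card_prod,
    Nat.card_prod, h, Nat.card_unique]

section main

variable (h2 : (2 : F) = 0) (h8 : ∀ x : F, x ^ 8 = x)
include h2 h8

theorem order_eq (h : Nat.card F = 8) [Finite F] :
    @Configuration.ProjectivePlane.order (Ln F) (Pt F) _ (plane h2 h8) = 64 := by
  let _ := plane h2 h8
  have : Fintype (Ln F) := Fintype.ofFinite _
  have h1 := Configuration.ProjectivePlane.card_points (Ln F) (Pt F)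
  rw [← Nat.card_eq_fintype_card, card_ln h] at h1
  generalize Configuration.ProjectivePlane.order (Ln F) (Pt F) = n at h1 ⊢
  have h3 : n ≤ 64 := by by_contra hn; push Not at hn; nlinarith
  have h4 : 64 ≤ n := by by_contra hn; push Not at hn; nlinarith
  omega

/-- An elation with axis `o` and centre `.vert 0 0` cannot move the point `.lin`. -/
theorem no_move {t : F} (ht : t ^ 2 + t ≠ 0) (σ : Equiv.Perm (Ln F) × Equiv.Perm (Pt F))
    (hσ : ∀ (p : Ln F) (m : Pt F), (p ∈ m ↔ σ.1 p ∈ σ.2 m))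
    (hl : ∀ p : Ln F, p ∈ (o : Pt F) → σ.1 p = p)
    (hc : ∀ m : Pt F, (.vert 0 0 : Ln F) ∈ m → σ.2 m = m) {k1 k2 : F}
    (hk : ¬ (k1 = 0 ∧ k2 = 0))
    (hx : σ.1 .lin = .vert k1 k2) : False := by
  -- image of the infinite points
  have s1 : ∀ x y : F, σ.2 (.inf x y) =
      .aff k1 k2 (k1 * x + k2 * w x y) (k1 * w x y + k2 * y) := by
    intro x y
    have e1 : (.gen x y 0 0 : Ln F) ∈ σ.2 (.inf x y) := by
      have := (hσ (.gen x y 0 0) (.inf x y)).mp ⟨rfl, rfl⟩
      rwa [hl (.gen x y 0 0) (by rw [mem_iff]; simp [o, inc])] at this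
    have e2 : (.vert k1 k2 : Ln F) ∈ σ.2 (.inf x y) := by
      have := (hσ .lin (.inf x y)).mp trivial
      rwa [hx] at this
    generalize σ.2 (.inf x y) = q at *
    rw [mem_iff] at e1 e2
    cases q <;> simp only [inc] at e1 e2
    case aff u1 u2 v1 v2 =>
      obtain ⟨rfl, rfl⟩ := e2
      rw [Pt.aff.injEq]
      refine ⟨rfl, rfl, ?_, ?_⟩
      · linear_combination e1.1
      · linear_combination e1.2
  -- image of the lines
  have s2 : ∀ x y m1 m2 : F, ∃ x' y' : F, σ.1 (.gen x y m1 m2) = .gen x' y' m1 m2 ∧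
      k1 * x + k2 * w x y = k1 * x' + k2 * w x' y' + m1 ∧
      k1 * w x y + k2 * y = k1 * w x' y' + k2 * y' + m2 := by
    intro x y m1 m2
    have e1 : σ.1 (.gen x y m1 m2) ∈
        (.aff k1 k2 (k1 * x + k2 * w x y) (k1 * w x y + k2 * y) : Pt F) := by
      have := (hσ (.gen x y m1 m2) (.inf x y)).mp ⟨rfl, rfl⟩
      rwa [s1] at this
    have e2 : σ.1 (.gen x y m1 m2) ∈ (.aff 0 0 m1 m2 : Pt F) := by
      have := (hσ (.gen x y m1 m2) (.aff 0 0 m1 m2)).mp (by rw [mem_iff]; simp [inc])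
      rwa [hc (.aff 0 0 m1 m2) ⟨rfl, rfl⟩] at this
    generalize σ.1 (.gen x y m1 m2) = q at *
    rw [mem_iff] at e1 e2
    cases q <;> simp only [inc] at e1 e2
    case gen x' y' k3 k4 =>
      have f1 : k3 = m1 := by linear_combination -e2.1
      have f2 : k4 = m2 := by linear_combination -e2.2
      subst f1 f2
      exact ⟨x', y', rfl, e1.1, e1.2⟩
    case vert k3 k4 =>
      exact absurd ⟨e1.1.trans e2.1.symm, e1.2.trans e2.2.symm⟩ hk
  -- image of the affine points of the line `.gen 0 0 0 0`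
  have s3 : ∀ u1 u2 x y : F, σ.1 (.gen x y (u1 * x + u2 * w x y) (u1 * w x y + u2 * y)) ∈
      σ.2 (.aff u1 u2 0 0 : Pt F) := by
    intro u1 u2 x y
    refine (hσ _ _).mp ?_
    rw [mem_iff]
    constructor
    · linear_combination (-(u1 * x + u2 * w x y)) * h2
    · linear_combination (-(u1 * w x y + u2 * y)) * h2
  have s4 : ∀ u1 u2 : F, (.gen 0 0 0 0 : Ln F) ∈ σ.2 (.aff u1 u2 0 0 : Pt F) := by
    intro u1 u2
    have h5 := (hσ (.gen 0 0 0 0) (.aff u1 u2 0 0)).mp (by rw [mem_iff]; simp [inc, w])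
    rwa [hl (.gen 0 0 0 0) (by rw [mem_iff]; simp [o, inc])] at h5
  have hw0 : w (0 : F) 0 = 0 := by simp [w]
  have s5 : ∀ u1 u2 : F, ¬ (u1 = k1 ∧ u2 = k2) → ∃ p1 p2 : F, ∀ x y : F, ∃ x' y' w' : F,
      p1 * x' + p2 * w' = u1 * x + u2 * w x y ∧ p1 * w' + p2 * y' = u1 * w x y + u2 * y ∧
      k1 * x' + k2 * w' = (k1 + u1) * x + (k2 + u2) * w x y ∧
      k1 * w' + k2 * y' = (k1 + u1) * w x y + (k2 + u2) * y := by
    intro u1 u2 hu
    have t3 := s3 u1 u2
    have t4 := s4 u1 u2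
    generalize σ.2 (.aff u1 u2 0 0 : Pt F) = q at *
    rw [mem_iff] at t4
    cases q <;> simp only [inc] at t4
    case aff p q v1 v2 =>
      have f1 : v1 = 0 := by linear_combination t4.1 + q * hw0
      have f2 : v2 = 0 := by linear_combination t4.2 + p * hw0
      subst f1 f2
      refine ⟨p, q, fun x y => ?_⟩
      have h5 := t3 x y
      obtain ⟨x', y', h6, h7, h9⟩ := s2 x y (u1 * x + u2 * w x y) (u1 * w x y + u2 * y)
      rw [h6, mem_iff] at h5
      simp only [inc] at h5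
      refine ⟨x', y', w x' y', ?_, ?_, ?_, ?_⟩
      · linear_combination -h5.1 - (u1 * x + u2 * w x y) * h2
      · linear_combination -h5.2 - (u1 * w x y + u2 * y) * h2
      · linear_combination -h7 - (u1 * x + u2 * w x y) * h2
      · linear_combination -h9 - (u1 * w x y + u2 * y) * h2
    case inf x0 y0 =>
      obtain ⟨rfl, rfl⟩ := t4
      exfalso
      have g : ∀ x y : F, k1 * x + k2 * w x y = u1 * x + u2 * w x y := by
        intro x y
        have h5 := t3 x y
        obtain ⟨x', y', h6, h7, h9⟩ := s2 x y (u1 * x + u2 * w x y) (u1 * w x y + u2 * y)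
        rw [h6, mem_iff] at h5
        simp only [inc] at h5
        obtain ⟨rfl, rfl⟩ := h5
        linear_combination h7 + k2 * hw0
      have g1 := g 0 1
      have g2 := g 1 0
      simp only [w] at g1 g2
      have e2 : u2 = k2 := by linear_combination -g1
      exact hu ⟨by linear_combination -g2 - e2, e2⟩
  by_cases hk2 : k2 = 0
  · subst hk2
    have hk1 : k1 ≠ 0 := fun h => hk ⟨h, rfl⟩
    obtain ⟨p1, p2, hp⟩ := s5 0 1 (fun h => hk1 h.1.symm)
    have g : ∀ x y : F, k1 * w x y = p1 * k1 * x + (p1 + p2 * k1) * w x y + p2 * y := by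
      intro x y
      obtain ⟨x', y', w', a1, a2, a3, a4⟩ := hp x y
      linear_combination -k1 * a1 + p1 * a3 + p2 * a4
    have g1 := g 0 1
    have g2 := g 1 0
    have g3 := g 0 t
    simp only [w] at g1 g2 g3
    have e1 : p2 * (t ^ 2 + t) = 0 := by
      linear_combination t ^ 2 * g1 - g3 + p2 * t ^ 2 * h2
    have e2 : p2 = 0 := (mul_eq_zero.mp e1).resolve_right ht
    subst e2
    have e3 : p1 = k1 := by linear_combination -g1
    subst e3
    have e4 : p1 * p1 = 0 := by linear_combination -g2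
    exact hk1 (mul_self_eq_zero.mp e4)
  · obtain ⟨p1, p2, hp⟩ := s5 1 0 (fun h => hk2 h.2.symm)
    have g : ∀ x y : F, (k1 + p1 * k1 + p1) * x + (p1 * k2 + k2 + p2 * k1 + p2) * w x y +
        p2 * k2 * y = 0 := by
      intro x y
      obtain ⟨x', y', w', a1, a2, a3, a4⟩ := hp x y
      linear_combination -k1 * a1 + p1 * a3 - k2 * a2 + p2 * a4 + (k1 * p1 * x +
        k1 * p2 * w x y + p1 * x + p1 * k2 * w x y + k2 * p2 * y + p2 * w x y) * h2
    have g1 := g 0 1
    have g2 := g 1 0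
    have g3 := g 0 t
    simp only [w] at g1 g2 g3
    have e1 : (p2 * k2) * (t ^ 2 + t) = 0 := by
      linear_combination t ^ 2 * g1 - g3 + (p2 * k2 * t) * h2
    have e2 : p2 = 0 := by
      rcases mul_eq_zero.mp e1 with h | h
      · exact (mul_eq_zero.mp h).resolve_right hk2
      · exact absurd h ht
    subst e2
    have e3 : (p1 + 1) * k2 = 0 := by linear_combination g1
    have e4 : p1 + 1 = 0 := (mul_eq_zero.mp e3).resolve_right hk2
    have e5 : p1 = 1 := by linear_combination e4 - h2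
    subst e5
    exact one_ne_zero (α := F) (by linear_combination g2 - (k1 + k2) * h2)

/-- Two distinct points that lie on the two lines `l`, `m` force `l = m`. -/
theorem line_fixed (σ : Equiv.Perm (Ln F) × Equiv.Perm (Pt F))
    (hσ : ∀ (p : Ln F) (m : Pt F), (p ∈ m ↔ σ.1 p ∈ σ.2 m)) {p q : Ln F} {m : Pt F}
    (hp : p ∈ m) (hq : q ∈ m) (hpq : p ≠ q) (h1 : σ.1 p = p) (h3 : σ.1 q = q) : σ.2 m = m := by
  have a1 := (hσ p m).mp hp
  have a2 := (hσ q m).mp hq
  rw [h1] at a1
  rw [h3] at a2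
  exact (inc_uniq h2 h8 a1 hp a2 hq).resolve_right hpq

theorem point_fixed (σ : Equiv.Perm (Ln F) × Equiv.Perm (Pt F))
    (hσ : ∀ (p : Ln F) (m : Pt F), (p ∈ m ↔ σ.1 p ∈ σ.2 m)) {p : Ln F} {l m : Pt F}
    (hl : p ∈ l) (hm : p ∈ m) (hlm : l ≠ m) (h1 : σ.2 l = l) (h3 : σ.2 m = m) : σ.1 p = p := by
  have a1 := (hσ p l).mp hl
  have a2 := (hσ p m).mp hm
  rw [h1] at a1
  rw [h3] at a2
  exact (inc_uniq h2 h8 a1 a2 hl hm).resolve_left hlm

/-- The identity is the only elation with axis `o` and centre `.vert 0 0`. -/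
theorem base_id {t : F} (ht : t ^ 2 + t ≠ 0) (σ : Equiv.Perm (Ln F) × Equiv.Perm (Pt F))
    (hσ : ∀ (p : Ln F) (m : Pt F), (p ∈ m ↔ σ.1 p ∈ σ.2 m))
    (hl : ∀ p : Ln F, p ∈ (o : Pt F) → σ.1 p = p)
    (hc : ∀ m : Pt F, (.vert 0 0 : Ln F) ∈ m → σ.2 m = m) : σ = 1 := by
  have hlin : σ.1 .lin = .lin := by
    have h1 : σ.1 .lin ∈ (.top : Pt F) := by
      have := (hσ .lin .top).mp trivial
      rwa [hc .top trivial] at this
    by_contra hne
    obtain ⟨k1, k2, hk⟩ : ∃ k1 k2 : F, σ.1 .lin = .vert k1 k2 := by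
      generalize σ.1 .lin = q at *
      cases q
      case gen => exact h1.elim
      case vert k1 k2 => exact ⟨k1, k2, rfl⟩
      case lin => exact absurd rfl hne
    refine no_move h2 h8 ht σ hσ hl hc ?_ hk
    rintro ⟨rfl, rfl⟩
    have h3 : σ.1 (.vert 0 0) = .vert 0 0 := hl _ ⟨rfl, rfl⟩
    have h4 := σ.1.injective (hk.trans h3.symm)
    cases h4
  have hinf : ∀ x y : F, σ.2 (.inf x y) = .inf x y := by
    intro x y
    refine line_fixed h2 h8 σ hσ (p := .lin) (q := .gen x y 0 0) trivial ⟨rfl, rfl⟩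
      (by intro h; cases h) hlin (hl _ ?_)
    rw [mem_iff]; simp [o, inc]
  have hgen : ∀ x y k1 k2 : F, σ.1 (.gen x y k1 k2) = .gen x y k1 k2 := by
    intro x y k1 k2
    refine point_fixed h2 h8 σ hσ (l := .inf x y) (m := .aff 0 0 k1 k2) ⟨rfl, rfl⟩ ?_
      (by intro h; cases h) (hinf x y) (hc _ ⟨rfl, rfl⟩)
    rw [mem_iff]; simp [inc]
  have haff : ∀ u1 u2 v1 v2 : F, σ.2 (.aff u1 u2 v1 v2) = .aff u1 u2 v1 v2 := by
    intro u1 u2 v1 v2
    refine line_fixed h2 h8 σ hσ (p := .gen 0 0 (v1 - (u1 * 0 + u2 * w 0 0))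
      (v2 - (u1 * w 0 0 + u2 * 0))) (q := .gen 0 1 (v1 - (u1 * 0 + u2 * w 0 1))
      (v2 - (u1 * w 0 1 + u2 * 1))) ?_ ?_ ?_ (hgen _ _ _ _) (hgen _ _ _ _)
    · exact ⟨by ring, by ring⟩
    · exact ⟨by ring, by ring⟩
    · intro h
      exact zero_ne_one (Ln.gen.inj h).2.1
  have hvert : ∀ k1 k2 : F, σ.1 (.vert k1 k2) = .vert k1 k2 := by
    intro k1 k2
    exact point_fixed h2 h8 σ hσ (l := .top) (m := .aff k1 k2 0 0) trivial ⟨rfl, rfl⟩
      (by intro h; cases h) (hc _ trivial) (haff _ _ _ _)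
  have hall : ∀ p : Ln F, σ.1 p = p := by
    intro p
    cases p
    case gen => exact hgen _ _ _ _
    case vert => exact hvert _ _
    case lin => exact hlin
  have hall2 : ∀ m : Pt F, σ.2 m = m := by
    intro m
    cases m
    case aff => exact haff _ _ _ _
    case inf => exact hinf _ _
    case top => exact hc _ trivial
  exact Prod.ext (Equiv.ext hall) (Equiv.ext hall2)

/-- The identity is the only elation with axis `o`. -/
theorem elation_id {t : F} (ht : t ^ 2 + t ≠ 0) (σ : Equiv.Perm (Ln F) × Equiv.Perm (Pt F))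
    (hσ : ∀ (p : Ln F) (m : Pt F), (p ∈ m ↔ σ.1 p ∈ σ.2 m))
    (hl : ∀ p : Ln F, p ∈ (o : Pt F) → σ.1 p = p) {c : Ln F} (hco : c ∈ (o : Pt F))
    (hc : ∀ m : Pt F, c ∈ m → σ.2 m = m) : σ = 1 := by
  have h0 : (.gen 0 0 0 0 : Ln F) ∈ (o : Pt F) := by rw [mem_iff]; simp [o, inc]
  have h1 : (.vert 0 0 : Ln F) ∈ (o : Pt F) := ⟨rfl, rfl⟩
  obtain ⟨g, hg, hgc⟩ : ∃ g ∈ grp (o : Pt F), g.1 c = .vert 0 0 := by
    by_cases h : c = .vert 0 0
    · exact ⟨1, one_mem _, h⟩
    · obtain ⟨g, hg, h3, -⟩ := two_trans h2 h8 hco h1 h1 h0 h (by intro h; cases h)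
      exact ⟨g, hg, h3⟩
  have hg' := inv_mem hg
  have key : g * σ * g⁻¹ = 1 := by
    refine base_id h2 h8 ht _ ?_ ?_ ?_
    · intro p m
      rw [hg'.1 p m, hσ, hg.1]
      rfl
    · intro p hp
      have h3 : g⁻¹.1 p ∈ (o : Pt F) := by
        have := (hg'.1 p o).mp hp
        rwa [hg'.2] at this
      change g.1 (σ.1 (g⁻¹.1 p)) = p
      rw [hl _ h3]
      change g.1 (g.1⁻¹ p) = p
      simp
    · intro m hm
      have h3 : c ∈ g⁻¹.2 m := by
        have := (hg'.1 (.vert 0 0) m).mp hm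
        have h4 : g⁻¹.1 (.vert 0 0) = c := by
          rw [← hgc]
          change g.1⁻¹ (g.1 c) = c
          simp
        rwa [h4] at this
      change g.2 (σ.2 (g⁻¹.2 m)) = m
      rw [hc _ h3]
      change g.2 (g.2⁻¹ m) = m
      simp
  have : σ = g⁻¹ * (g * σ * g⁻¹) * g := by group
  rw [this, key]
  group

end main

end Pool.Agent.H4ILune
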